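import Mathlib

set_option autoImplicit false

open Set

namespace Pool.Agent.Results.MP_a1e9e0_gt.Example

/-- The covering property for decompositions indexed by `I`: for every closed `F` and every open
cover of `F` decomposed as `U i` (`i : I`) there are countable `V i ⊆ U i` with
`F ⊆ ⋃ i, closure (⋃₀ V i)`. -/
def Piecewise (X : Type) [TopologicalSpace X] (I : Type) : Prop :=
  ∀ F : Set X, IsClosed F → ∀ U : I → Set (Set X), (∀ i, ∀ u ∈ U i, IsOpen u) →
    F ⊆ ⋃ i, ⋃₀ U i →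
      ∃ V : I → Set (Set X), (∀ i, V i ⊆ U i ∧ (V i).Countable) ∧ F ⊆ ⋃ i, closure (⋃₀ V i)

def Y : Type := {x : ℝ → Option ℝ // {i | x i = none}.Countable}

instance : TopologicalSpace Y where
  IsOpen U := ∀ x ∈ U, ∃ s : Finset ℝ, (∀ i ∈ s, x.1 i ≠ none) ∧
    ∀ y : Y, (∀ i ∈ s, y.1 i = x.1 i) → y ∈ U
  isOpen_univ _ _ := ⟨∅, by simp, fun _ _ => trivial⟩
  isOpen_inter U V hU hV x hx := by
    classical
    obtain ⟨s, s1, s2⟩ := hU x hx.1
    obtain ⟨t, t1, t2⟩ := hV x hx.2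
    exact ⟨s ∪ t, fun i hi => (Finset.mem_union.1 hi).elim (s1 i) (t1 i), fun y hy =>
      ⟨s2 y fun i hi => hy i (Finset.mem_union_left _ hi),
        t2 y fun i hi => hy i (Finset.mem_union_right _ hi)⟩⟩
  isOpen_sUnion S hS x := fun ⟨U, hU, hx⟩ =>
    let ⟨s, s1, s2⟩ := hS U hU x hx; ⟨s, s1, fun y hy => ⟨U, hU, s2 y hy⟩⟩

lemma isOpen_cyl (i a : ℝ) : IsOpen {x : Y | x.1 i = some a} := fun x hx =>
  ⟨{i}, by simp [show x.1 i = some a from hx], fun y hy => (hy i (by simp)).trans hx⟩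

theorem result : ∃ (X : Type) (_ : TopologicalSpace X), T0Space X ∧ Piecewise X ℕ ∧
    ∃ I : Type, ¬ Piecewise X I := by
  classical
  refine ⟨Y, inferInstance, (t0Space_iff_exists_isOpen_xor_mem Y).2 fun x y hxy => ?_,
    fun F hF U hU hc => ?_, ℝ, fun h => ?_⟩
  · obtain ⟨i, hi⟩ := Function.ne_iff.1 fun h : x.1 = y.1 => hxy (Subtype.ext h)
    cases hx : x.1 i with
    | some a => exact ⟨_, isOpen_cyl i a, Or.inl ⟨hx, fun h => hi (hx.trans h.symm)⟩⟩
    | none =>
      obtain ⟨a, ha⟩ := Option.ne_none_iff_exists'.1 fun h => hi (hx.trans h.symm)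
      exact ⟨_, isOpen_cyl i a, Or.inr ⟨ha, fun h => hi (h.trans ha.symm)⟩⟩
  · rcases F.eq_empty_or_nonempty with rfl | ⟨x, hx⟩
    · exact ⟨fun _ => ∅, by simp, by simp⟩
    by_cases hA : ∃ n, ∀ r : Finset ℝ, ∃ s : Finset ℝ, ∃ u ∈ U n, ∃ y : Y, (∀ i ∈ s, y.1 i ≠ none) ∧
        (∀ z : Y, (∀ i ∈ s, z.1 i = y.1 i) → z ∈ u) ∧ ∀ i ∈ s, i ∉ r
    · obtain ⟨n, hn⟩ := hA
      choose g u hu y hy1 hy2 hg using hn
      obtain ⟨r, hr⟩ : ∃ r : ℕ → Finset ℝ, ∀ k, r (k + 1) = r k ∪ g (r k) :=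
        ⟨fun k => Nat.rec ∅ (fun _ r => r ∪ g r) k, fun _ => rfl⟩
      have hm : Monotone r := monotone_nat_of_le_succ fun k => hr k ▸ Finset.subset_union_left
      refine ⟨fun m => range (fun k => u (r k)) ∩ U m, fun m =>
        ⟨inter_subset_right, (countable_range _).mono inter_subset_left⟩, fun z _ =>
          mem_iUnion.2 ⟨n, mem_closure_iff.2 fun o ho hz => ?_⟩⟩
      obtain ⟨t, -, ht⟩ := ho z hz
      obtain ⟨k, hk⟩ : ∃ k, ∀ i ∈ g (r k), i ∉ t := by
        by_contra hn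
        push Not at hn
        choose j hj1 hj2 using hn
        have : ∀ k l, k < l → j k ≠ j l := fun k l hkl h => hg _ _ (hj1 l)
          (h ▸ hm hkl (hr k ▸ Finset.mem_union_right _ (hj1 k)))
        exact infinite_of_injective_forall_mem (Function.Injective.of_lt_imp_ne this) hj2 t.finite_toSet
      refine ⟨⟨fun i => if i ∈ g (r k) then (y (r k)).1 i else z.1 i, z.2.mono fun i hi => ?_⟩,
        ht _ fun i hi => if_neg fun h => hk i h hi, _, ⟨⟨k, rfl⟩, hu _⟩,
        hy2 _ _ fun i hi => if_pos hi⟩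
      by_cases h : i ∈ g (r k)
      · exact absurd ((if_pos h).symm.trans hi) (hy1 _ i h)
      · exact (if_neg h).symm.trans hi
    · push Not at hA
      choose r hr using hA
      let x' : Y := ⟨fun i => if ∃ n, i ∈ r n then none else x.1 i,
        (x.2.union (countable_iUnion fun n => (r n).countable_toSet)).mono fun i hi => by
          by_cases h : ∃ n, i ∈ r n
          · exact Or.inr (mem_iUnion.2 h)
          · exact Or.inl ((if_neg h).symm.trans hi)⟩
      have hx' : x' ∈ F := by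
        by_contra h
        obtain ⟨s, s1, s2⟩ := hF.isOpen_compl x' h
        exact s2 x (fun i hi => (if_neg fun h => s1 i hi (if_pos h)).symm) hx
      obtain ⟨n, u, hu, hxu⟩ := mem_iUnion.1 (hc hx')
      obtain ⟨s, s1, s2⟩ := hU n u hu x' hxu
      obtain ⟨i, hi, hir⟩ := hr n s u hu x' s1 s2
      exact absurd (if_pos ⟨n, hir⟩) (s1 i hi)
  · obtain ⟨V, hV, hc⟩ := h univ isClosed_univ (fun i => range fun a => {x : Y | x.1 i = some a})
      (fun i u ⟨a, ha⟩ => ha ▸ isOpen_cyl i a) fun x _ => by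
        obtain ⟨i, hi⟩ : ∃ i, x.1 i ≠ none := by
          by_contra hn
          push Not at hn
          exact not_countable_univ (x.2.mono fun i _ => hn i)
        obtain ⟨a, ha⟩ := Option.ne_none_iff_exists'.1 hi
        exact mem_iUnion.2 ⟨i, _, ⟨a, rfl⟩, ha⟩
    have : ∀ i, ∃ a, {x : Y | x.1 i = some a} ∉ V i := fun i => by
      by_contra hn
      push Not at hn
      refine not_countable_univ (((hV i).2.preimage (f := fun a => {x : Y | x.1 i = some a})
        fun a b hab => ?_).mono fun a _ => hn a)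
      have : (⟨fun _ => some a, by simp⟩ : Y) ∈ {x : Y | x.1 i = some a} := rfl
      exact Option.some.inj (hab.subset this)
    choose f hf using this
    obtain ⟨i, hi⟩ := mem_iUnion.1 (hc (mem_univ ⟨fun i => some (f i), by simp⟩))
    obtain ⟨z, hz, v, hv, hzv⟩ := mem_closure_iff.1 hi _ (isOpen_cyl i (f i)) rfl
    obtain ⟨a, rfl⟩ := (hV i).1 hv
    exact hf i (Option.some.inj (hz.symm.trans hzv) ▸ hv)

end Pool.Agent.Results.MP_a1e9e0_gt.Example
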